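import Pool.Agent.U280.OL.Stm

set_option autoImplicit false

/-!
Project OL, package Q11: the coordinates of the product.
-/

open MeasureTheory Set Filter Topology

namespace Pool.Agent.U129.OL

open Pool.Agent.U280.OD Pool.Agent.U280.OE Pool.Agent.U280.OL

theorem t_Q11 : Q11 := by
  intro k m
  let J1 : P k m ≃ᵐ ((Fin k → ℝ) × (Fin m → ℝ)) :=
    (MeasurableEquiv.toLp 2 (Fin k → ℝ)).symm.prodCongr (MeasurableEquiv.refl _)
  let J2 : ((Fin k → ℝ) × (Fin m → ℝ)) ≃ᵐ ((i : Fin k ⊕ Fin m) → ℝ) :=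
    (MeasurableEquiv.sumPiEquivProdPi (fun _ : Fin k ⊕ Fin m => ℝ)).symm
  let J3 : ((i : Fin k ⊕ Fin m) → ℝ) ≃ᵐ (Fin (k + m) → ℝ) :=
    MeasurableEquiv.piCongrLeft (fun _ : Fin (k + m) => ℝ) finSumFinEquiv
  refine ⟨(J1.trans J2).trans J3, ?_, ?_⟩
  · have h1 : MeasurePreserving J1 :=
      (EuclideanSpace.volume_preserving_symm_measurableEquiv_toLp (Fin k)).prod
        (MeasurePreserving.id _)
    have h2 : MeasurePreserving J2 :=
      volume_measurePreserving_sumPiEquivProdPi_symm (fun _ : Fin k ⊕ Fin m => ℝ)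
    have h3 : MeasurePreserving J3 :=
      volume_measurePreserving_piCongrLeft (fun _ : Fin (k + m) => ℝ) finSumFinEquiv
    exact h3.comp (h2.comp h1)
  · intro z
    funext i
    have h4 : ∀ s : Fin k ⊕ Fin m, ((J1.trans J2).trans J3) z (finSumFinEquiv s) =
        Sum.elim (WithLp.ofLp z.1) z.2 s := by
      intro s
      change (Equiv.piCongrLeft (fun _ : Fin (k + m) => ℝ) finSumFinEquiv) (J2 (J1 z))
        (finSumFinEquiv s) = _
      rw [Equiv.piCongrLeft_apply_apply]
      cases s <;> rfl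
    refine Fin.addCases (fun j => ?_) (fun j => ?_) i
    · have := h4 (Sum.inl j)
      simpa using this
    · have := h4 (Sum.inr j)
      simpa using this
end Pool.Agent.U129.OL
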